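import Pool.Agent.K7.H25.GD.Stm
import Pool.Agent.K7.H70.GD_SIZE
import Pool.Agent.K7.H8.GD_NBR
import Pool.Agent.K7.H68.GD_DEG
import Pool.Agent.K7.H55.GD_WIND
import Pool.Agent.Results.MP_619a4d_co.DiameterTwoReduction

/-!
# Hosts of diameter two with large cliques of one size (MP_619a4d_co)

Q1 holds if and only if every `{C₄, K₄ - e}`-free graph is, for every `n`, an induced subgraph of a
geodetic graph of diameter at most two without dominating vertex in which every maximal clique has
two or `s` vertices, for some `s ≥ n`, and some vertex lies in at least `n` maximal cliques with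
`s` vertices.
The reduction to diameter two is the starting file `DiameterTwoReduction`.
-/

set_option autoImplicit false

namespace Pool.Agent.Results.MP_619a4d_co.EqualCliqueHosts

open Pool.Agent.Results.MP_619a4d_co.DiameterTwoReduction Pool.Agent.K7.H25.GD SimpleGraph

/-- `H` is an induced subgraph of a finite geodetic graph of diameter at most two without
dominating vertex in which every maximal clique has two or `s` vertices, where `3 ≤ s` and `n ≤ s`,
and some vertex lies in at least `n` and at least three maximal cliques with `s` vertices. -/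
def EmbedsEqual {V : Type} (n : ℕ) (H : SimpleGraph V) : Prop :=
  ∃ (s : ℕ) (W : Type) (_ : Finite W) (G : SimpleGraph W), 3 ≤ s ∧ n ≤ s ∧ Geodetic G ∧
    (∀ u v, G.dist u v ≤ 2) ∧ NoDom G ∧ (∀ C : Set W, MaxClique G C → C.ncard = 2 ∨ C.ncard = s) ∧
    (∃ c : W, max n 3 ≤ {C : Set W | MaxClique G C ∧ c ∈ C ∧ C.ncard = s}.ncard) ∧
    Nonempty (H ↪g G)

theorem two_of {W : Type} {G : SimpleGraph W} (hG : Geodetic G) (hd : ∀ u v, G.dist u v ≤ 2) :
    Two G := by
  have hex : ∀ u v : W, u ≠ v → ¬ G.Adj u v → ∃ a, G.Adj u a ∧ G.Adj v a := by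
    intro u v huv hn
    obtain ⟨p, hp⟩ := hG.1.exists_walk_length_eq_dist u v
    have h2 := hd u v
    rw [← hp] at h2
    match p, h2 with
    | Walk.nil, _ => exact absurd rfl huv
    | Walk.cons h Walk.nil, _ => exact absurd h hn
    | Walk.cons h (Walk.cons h' Walk.nil), _ => exact ⟨_, h, h'.symm⟩
    | Walk.cons h (Walk.cons h' (Walk.cons h'' r)), hd =>
      simp only [Walk.length_cons] at hd
      omega
  refine ⟨?_, hex⟩
  intro u v a b huv hn ha hva hb hvb
  have h0 : G.dist u v ≠ 0 := fun h => huv ((hG.1.dist_eq_zero_iff).1 h)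
  have h1 : G.dist u v ≠ 1 := fun h => hn ((SimpleGraph.dist_eq_one_iff_adj).1 h)
  have h2 := hd u v
  have h3 := hG.2 u v (Walk.cons ha (Walk.cons hva.symm Walk.nil))
    (Walk.cons hb (Walk.cons hvb.symm Walk.nil))
    (by simp only [Walk.length_cons, Walk.length_nil]; omega)
    (by simp only [Walk.length_cons, Walk.length_nil]; omega)
  simp only [Walk.cons.injEq] at h3
  exact h3.1

/-- the disjoint union of two graphs -/
def ext {V V' : Type} (H : SimpleGraph V) (H' : SimpleGraph V') : SimpleGraph (V ⊕ V') where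
  Adj a b := match a, b with
    | Sum.inl u, Sum.inl v => H.Adj u v
    | Sum.inr u, Sum.inr v => H'.Adj u v
    | _, _ => False
  symm := ⟨by
    rintro (u | p) (v | q) h
    · exact SimpleGraph.Adj.symm (G := H) h
    · exact h.elim
    · exact h.elim
    · exact SimpleGraph.Adj.symm (G := H') h⟩
  loopless := ⟨by
    rintro (u | p) h
    · exact H.irrefl h
    · exact H'.irrefl h⟩

theorem ext_free {V V' : Type} {H : SimpleGraph V} {H' : SimpleGraph V'} (hH : CDFree H)
    (hH' : Loose H') : CDFree (ext H H') := by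
  rintro (u | p) (v | q) (x | r) (y | t) huv hn h1 h2 h3 h4
  all_goals first
    | exact h1.elim
    | exact h2.elim
    | exact h3.elim
    | exact h4.elim
    | skip
  · exact congrArg Sum.inl (hH u v x y (fun h => huv (by rw [h])) hn h1 h2 h3 h4)
  · exact congrArg Sum.inr (hH' p q r t (fun h => huv (by rw [h])) hn h1
      (SimpleGraph.Adj.symm (G := H') h2) h3 (SimpleGraph.Adj.symm (G := H') h4))

theorem main {V V' : Type} [Finite V] [Finite V'] (N : ℕ) (hN : 3 ≤ N) {H : SimpleGraph V}
    {H' : SimpleGraph V'}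
    (hW : ∀ (W : Type) [Finite W] (G : SimpleGraph W), Two G → Nonempty (H' ↪g G) → NoDom G ∧
      ∃ c : W, N ≤ {C : Set W | MaxClique G C ∧ c ∈ C ∧ N ≤ C.ncard}.ncard)
    (h : EmbedsGeodeticTwo (ext H H')) : EmbedsEqual N H := by
  obtain ⟨W, hWf, G, hG, hd, ⟨φ⟩⟩ := h
  have h2 := two_of hG hd
  obtain ⟨hdom, c, hc⟩ := hW W G h2 ⟨⟨⟨fun v => φ (Sum.inr v),
    fun u v h => Sum.inr_injective (φ.injective h)⟩,
      fun {u v} => φ.map_adj_iff (v := Sum.inr u) (w := Sum.inr v)⟩⟩
  have hne : Nonempty W := ⟨c⟩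
  obtain ⟨s, hs, hC⟩ := Pool.Agent.K7.H70.GDSIZE.t Pool.Agent.K7.H68.GDDEG.t
    Pool.Agent.K7.H8.GDNBR.t W G h2 hdom
  have hset : {C : Set W | MaxClique G C ∧ c ∈ C ∧ N ≤ C.ncard} ⊆
      {C : Set W | MaxClique G C ∧ c ∈ C ∧ C.ncard = s} := by
    rintro C ⟨h3, h4, h5⟩
    refine ⟨h3, h4, ?_⟩
    rcases hC C h3 with h | h
    · omega
    · exact h
  have hNs : N ≤ s := by
    have hpos : 0 < {C : Set W | MaxClique G C ∧ c ∈ C ∧ N ≤ C.ncard}.ncard := by omega
    obtain ⟨C, h3, h4, h5⟩ := (Set.ncard_pos (Set.toFinite _)).1 hpos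
    rcases hC C h3 with h | h <;> omega
  refine ⟨s, W, hWf, G, hs, hNs, hG, hd, hdom, hC, ⟨c, ?_⟩,
    ⟨⟨⟨fun v => φ (Sum.inl v), fun u v h => Sum.inl_injective (φ.injective h)⟩,
      fun {u v} => φ.map_adj_iff (v := Sum.inl u) (w := Sum.inl v)⟩⟩⟩
  rw [max_eq_left hN]
  exact hc.trans (Set.ncard_le_ncard hset (Set.toFinite _))

/-- Q1 holds if and only if, for every `n`, every `{C₄, K₄ - e}`-free finite graph is an induced
subgraph of a geodetic graph of diameter at most two without dominating vertex whose maximal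
cliques have two or `s` vertices, for some `s ≥ n`, and in which some vertex lies in at least `n`
maximal cliques with `s` vertices. -/
theorem result :
    (∀ (V : Type) (_ : Finite V) (H : SimpleGraph V), CDFree H → EmbedsGeodetic H) ↔
    (∀ (n : ℕ) (V : Type) (_ : Finite V) (H : SimpleGraph V), CDFree H → EmbedsEqual n H) := by
  constructor
  · intro h n V hV H hH
    obtain ⟨V', hV', H', hL, hW⟩ := Pool.Agent.K7.H55.GDWIND.t (max n 3) (le_max_right _ _)
    obtain ⟨s, W, hW', G, h1, h2, h3, h4, h5, h6, ⟨c, h7⟩, h8⟩ :=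
      main (max n 3) (le_max_right _ _) hW
        (DiameterTwoReduction.result.1 h _ inferInstance (ext H H') (ext_free hH hL))
    exact ⟨s, W, hW', G, h1, (le_max_left _ _).trans h2, h3, h4, h5, h6,
      ⟨c, (le_max_left _ _).trans h7⟩, h8⟩
  · intro h V hV H hH
    obtain ⟨s, W, hW, G, -, -, hG, -, -, -, -, hφ⟩ := h 0 V hV H hH
    exact ⟨W, hW, G, hG, hφ⟩

end Pool.Agent.Results.MP_619a4d_co.EqualCliqueHosts
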